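import Pool.Agent.LibDE40.Defs

/-!
# Auxiliary definitions
-/

open Polynomial

namespace DE40

/-! ### the relation `P = exp (-∑ g(k) T^k / k)` -/

section rel

variable {R : Type*} [CommRing R]

/-- `T P' = -P ∑_{k ≥ 1} g(k) T^k` -/
def Rel (P : PowerSeries R) (g : ℕ → R) : Prop :=
  PowerSeries.X * PowerSeries.derivative R P =
    -(P * PowerSeries.mk fun k => if k = 0 then 0 else g k)

end rel

/-- weights which depend only on the orbit and are multiplicative in the length -/
structure Wt {X : Type} (Φ : X → X) (V : Set X) {E : Type} [Field E] (ω : ℕ → X → E) :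
    Prop where
  inv : ∀ k x, 0 < k → Φ^[k] x = x → ω k (Φ x) = ω k x
  pow : ∀ x ∈ V, ∀ e, 0 < e → Φ^[e] x = x → ∀ j, 0 < j → ω (e * j) x = ω e x ^ j

/-- the sum of the weights over the points of `V` fixed by `Φ^k` -/
noncomputable def fixSum {X : Type} (Φ : X → X) (V : Set X) {E : Type} [Field E]
    (ω : ℕ → X → E) (k : ℕ) : E :=
  ∑ᶠ (x : X) (_ : x ∈ V ∧ Φ^[k] x = x), ω k x

/-- power sums -/
noncomputable def psum {E : Type} [Field E] (γ : Multiset (integralClosure ℤ E)) (k : ℕ) : E :=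
  (γ.map fun x : integralClosure ℤ E => (x : E) ^ k).sum

section frob

/-- the Frobenius on `Ω^r` -/
noncomputable def Fr (F : Type) [Field F] (r : ℕ) (x : Fin r → AlgebraicClosure F) :
    Fin r → AlgebraicClosure F := fun i => x i ^ Nat.card F

/-- the exponent of the norm of the extension of degree `k` -/
noncomputable def ne (F : Type) [Field F] (k : ℕ) : ℕ := ∑ i ∈ Finset.range k, Nat.card F ^ i

/-- a retraction of the algebraic closure to `F` -/
noncomputable def ret (F : Type) [Field F] (y : AlgebraicClosure F) : F :=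
  Function.invFun (algebraMap F (AlgebraicClosure F)) y

variable {F : Type} [Field F] {E : Type} [Field E] {r s t : ℕ}

/-- the zero set of the `H i` -/
def zset (H : Fin s → MvPolynomial (Fin r) F) : Set (Fin r → AlgebraicClosure F) :=
  {x | ∀ i, MvPolynomial.aeval x (H i) = 0}

/-- the weights -/
noncomputable def wt (G : Fin t → MvPolynomial (Fin r) F) (χ : Fin t → MulChar F E) (k : ℕ)
    (x : Fin r → AlgebraicClosure F) : E :=
  ∏ j, χ j (ret F (MvPolynomial.aeval x (G j) ^ ne F k))

end frob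

/-- `g(n) = ∑ γ^n - ∑ δ^n` for `n ≥ 1`, and `∏ (1 - ρ(δ) T) / ∏ (1 - ρ(γ) T) = A / B` -/
def Typ {E : Type} [Field E] {k : Type} [Field k] (ρ : integralClosure ℤ E →+* k) (g : ℕ → E)
    (A B : k[X]) : Prop :=
  ∃ γ δ : Multiset (integralClosure ℤ E), (∀ n, 0 < n → g n = psum γ n - psum δ n) ∧
    A * (γ.map fun x => 1 - C (ρ x) * X).prod = B * (δ.map fun x => 1 - C (ρ x) * X).prod

section roots

variable {F : Type} [Field F]

/-- the number of roots of `P` in `K` -/
noncomputable def rootCount (P : F[X]) (K : Type) [Field K] [Algebra F K] : ℕ :=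
  Nat.card {x : K // aeval x P = 0}

/-- `∏ (1 - T ^ deg g)` over the monic irreducible factors -/
noncomputable def facProd' (k : Type) [Field k] (P : F[X]) : k[X] :=
  ∏ᶠ (g : F[X]) (_ : g.Monic ∧ Irreducible g ∧ g ∣ P), (1 - X ^ g.natDegree)

/-- the number of roots, as a function of the degree of `K` -/
noncomputable def rcn (P : F[X]) (n : ℕ) : ℕ :=
  ∑ᶠ (g : F[X]) (_ : g.Monic ∧ Irreducible g ∧ g ∣ P),
    if g.natDegree ∣ n then g.natDegree else 0

/-- the number of `s ∈ K^{d+1}` with `D(s₀) ≠ 0`, `s_i ≠ f_{i+1}(s_{i+1})` -/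
noncomputable def chainCount {d : ℕ} (D : F[X]) (f : Fin d → F[X]) (K : Type) [Field K]
    [Algebra F K] : ℕ :=
  Nat.card {s : Fin (d + 1) → K // aeval (s 0) D ≠ 0 ∧
    ∀ i : Fin d, s i.castSucc - aeval (s i.succ) (f i) ≠ 0}

/-- the count as a function of the degree -/
noncomputable def ccn (F : Type) [Field F] : {d : ℕ} → (D : F[X]) → (f : Fin d → F[X]) → ℕ → ℤ
  | 0, D, _, n => (Nat.card F : ℤ) ^ n - rcn D n
  | d + 1, D, f, n => ((Nat.card F : ℤ) ^ n - rcn D n) *
      ((Nat.card F : ℤ) ^ n * ((Nat.card F : ℤ) ^ n - 1) ^ d) -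
      ccn F (D.comp (f 0)) (Fin.tail f) n

/-- the polynomials in `d + 1` variables -/
noncomputable def chG {d : ℕ} (D : F[X]) (f : Fin d → F[X]) :
    Fin (d + 1) → MvPolynomial (Fin (d + 1)) F :=
  Fin.cons (aeval (MvPolynomial.X 0) D)
    fun i => MvPolynomial.X i.castSucc - aeval (MvPolynomial.X i.succ) (f i)

end roots

end DE40
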