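import Pool.Agent.LibDE40.Base

/-!
# Row DE_M1 (helper40, MP_93fb11_ag)
-/

open Polynomial

namespace DE40

open Matrix Module LinearMap in
/-- extension of an independent vector to a basis -/
theorem M1_basis {K V : Type*} [Field K] [AddCommGroup V] [Module K V] [FiniteDimensional K V]
    (v : V) (hv : v ≠ 0) :
    ∃ (m : ℕ) (b : Basis (Unit ⊕ Fin m) K V), 1 + m = finrank K V ∧ b (Sum.inl ()) = v := by
  have hli : LinearIndependent K (fun _ : Unit => v) := by
    rw [linearIndependent_unique_iff]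
    exact hv
  obtain ⟨W, hW⟩ := Submodule.exists_isCompl (Submodule.span K (Set.range fun _ : Unit => v))
  let b := ((Basis.span hli).prod (finBasis K W)).map (Submodule.prodEquivOfIsCompl _ W hW)
  refine ⟨_, b, ?_, ?_⟩
  · rw [Module.finrank_eq_card_basis b]; simp
  · simp [b, Basis.span_apply]

open Matrix in
theorem M1_pow {K : Type*} [Field K] {m : ℕ} (c : K) (B : Matrix Unit (Fin m) K)
    (D : Matrix (Fin m) (Fin m) K) (k : ℕ) :
    ∃ B' : Matrix Unit (Fin m) K,
      (fromBlocks (c • (1 : Matrix Unit Unit K)) B 0 D) ^ k =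
        fromBlocks (c ^ k • (1 : Matrix Unit Unit K)) B' 0 (D ^ k) := by
  induction k with
  | zero => exact ⟨0, by simp [Matrix.fromBlocks_one]⟩
  | succ k ih =>
    obtain ⟨B', h⟩ := ih
    refine ⟨c ^ k • (1 : Matrix Unit Unit K) * B + B' * D, ?_⟩
    rw [pow_succ, h, Matrix.fromBlocks_multiply]
    congr 1
    · rw [Matrix.smul_mul, Matrix.one_mul, smul_smul, Matrix.mul_zero, add_zero, pow_succ]
    · simp
    · rw [Matrix.zero_mul, zero_add, pow_succ]

open Matrix Module LinearMap in
theorem M1_lin {K : Type} [Field K] [IsAlgClosed K] (n : ℕ) : ∀ (V : Type) [AddCommGroup V]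
    [Module K V] [FiniteDimensional K V] (f : Module.End K V), finrank K V = n → ∀ k : ℕ,
      LinearMap.trace K V (f ^ k) = (f.charpoly.roots.map fun x => x ^ k).sum := by
  induction n with
  | zero =>
    intro V _ _ _ f hV k
    have h1 : f.charpoly.natDegree = 0 := by rw [LinearMap.charpoly_natDegree, hV]
    have h2 : f.charpoly = 1 := (LinearMap.charpoly_monic f).natDegree_eq_zero.mp h1
    have hs : Subsingleton V := finrank_zero_iff.mp hV
    rw [h2, roots_one]
    have h3 : f ^ k = 0 := Subsingleton.elim _ _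
    rw [h3, map_zero]
    rfl
  | succ n ih =>
    intro V _ _ _ f hV k
    have hnt : Nontrivial V := by
      apply nontrivial_of_finrank_pos (R := K); omega
    obtain ⟨c, hc⟩ := Module.End.exists_eigenvalue f
    obtain ⟨v, hv⟩ := hc.exists_hasEigenvector
    obtain ⟨m, b, hm, hb⟩ := M1_basis (K := K) v hv.2
    have hmn : m = n := by omega
    subst hmn
    set A := toMatrix b b f with hA
    have hfv : f v = c • v := hv.apply_eq_smul
    have h11 : A.toBlocks₁₁ = c • 1 := by
      ext ⟨⟩ ⟨⟩
      rw [Matrix.toBlocks₁₁, Matrix.of_apply, hA, toMatrix_apply, hb, hfv, map_smul, ← hb]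
      simp
    have h21 : A.toBlocks₂₁ = 0 := by
      ext i ⟨⟩
      rw [Matrix.toBlocks₂₁, Matrix.of_apply, hA, toMatrix_apply, hb, hfv, map_smul, ← hb]
      simp
    have hAb : A = fromBlocks (c • 1) A.toBlocks₁₂ 0 A.toBlocks₂₂ := by
      rw [← h11, ← h21, Matrix.fromBlocks_toBlocks]
    have ih' := ih (Fin m → K) (Matrix.toLin' A.toBlocks₂₂) (by simp) k
    have hcD : (Matrix.toLin' A.toBlocks₂₂).charpoly = A.toBlocks₂₂.charpoly := by
      rw [← LinearMap.charpoly_toMatrix (Matrix.toLin' A.toBlocks₂₂) (Pi.basisFun K (Fin m)),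
        LinearMap.toMatrix_eq_toMatrix', LinearMap.toMatrix'_toLin']
    have hch : f.charpoly = (X - C c) * (Matrix.toLin' A.toBlocks₂₂).charpoly := by
      rw [hcD]
      generalize A.toBlocks₂₂ = D at hAb
      rw [← LinearMap.charpoly_toMatrix f b, ← hA, hAb, Matrix.charpoly_fromBlocks_zero₂₁]
      congr 1
      rw [Matrix.charpoly, Matrix.det_unique, Matrix.charmatrix_apply]
      simp
    have htr : LinearMap.trace K (Fin m → K) (Matrix.toLin' A.toBlocks₂₂ ^ k) =
        (A.toBlocks₂₂ ^ k).trace := by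
      rw [LinearMap.trace_eq_matrix_trace K (Pi.basisFun K (Fin m)), ← LinearMap.toMatrix_pow,
        LinearMap.toMatrix_eq_toMatrix', LinearMap.toMatrix'_toLin']
    rw [hch, roots_mul, roots_X_sub_C, Multiset.map_add, Multiset.sum_add, ← ih']
    · rw [htr, LinearMap.trace_eq_matrix_trace K b, ← LinearMap.toMatrix_pow, ← hA]
      obtain ⟨B', hB'⟩ := M1_pow c A.toBlocks₁₂ A.toBlocks₂₂ k
      generalize A.toBlocks₂₂ = D at hAb hB'
      rw [hAb, hB']
      simp [Matrix.trace, Fintype.sum_sum_type]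
    · exact mul_ne_zero (X_sub_C_ne_zero c) (LinearMap.charpoly_monic _).ne_zero

section

variable {E : Type} [Field E] [CharZero E] [IsAlgClosed E]

theorem trace_pow_eq (N : ℕ) (A : Matrix (Fin N) (Fin N) E) (n : ℕ) :
    (A ^ n).trace = (A.charpoly.roots.map fun x => x ^ n).sum := by
  have h := M1_lin N (Fin N → E) (Matrix.toLin' A) (by simp) n
  rw [LinearMap.trace_eq_matrix_trace E (Pi.basisFun E (Fin N)), ← LinearMap.toMatrix_pow,
    LinearMap.toMatrix_eq_toMatrix', LinearMap.toMatrix'_toLin',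
    ← LinearMap.charpoly_toMatrix (Matrix.toLin' A) (Pi.basisFun E (Fin N)),
    LinearMap.toMatrix_eq_toMatrix', LinearMap.toMatrix'_toLin'] at h
  exact h

end

end DE40
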