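import Mathlib

/-!
# Character sums of `ℓ`-power order (MP_93fb11_ag)

Definitions shared by all files.
-/

open Polynomial

namespace DE40

/-- `∑ ∏_j χ_j(N(G_j(x)))` over the points `x ∈ K^r` with `H_i(x) = 0` for all `i`; here `N` is
the norm from `K` to `F` -/
noncomputable def charSum {F E : Type} [Field F] [Field E] {r s t : ℕ}
    (H : Fin s → MvPolynomial (Fin r) F) (G : Fin t → MvPolynomial (Fin r) F)
    (χ : Fin t → MulChar F E) (K : Type) [Field K] [Algebra F K] : E :=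
  ∑ᶠ (x : Fin r → K) (_ : ∀ i, MvPolynomial.aeval x (H i) = 0),
    ∏ j, χ j (Algebra.norm F (MvPolynomial.aeval x (G j)))

/-- the number of points `x ∈ K^r` with `H_i(x) = 0` for all `i` and `G_j(x) ≠ 0` for all `j` -/
noncomputable def ptCount {F : Type} [Field F] {r s t : ℕ}
    (H : Fin s → MvPolynomial (Fin r) F) (G : Fin t → MvPolynomial (Fin r) F)
    (K : Type) [Field K] [Algebra F K] : ℕ :=
  Nat.card {x : Fin r → K // (∀ i, MvPolynomial.aeval x (H i) = 0) ∧
    ∀ j, MvPolynomial.aeval x (G j) ≠ 0}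

/-- `∑ χ₀(N(D(s₀))) χ₁(N(s₀ - f₁(s₁))) ⋯ χ_d(N(s_{d-1} - f_d(s_d)))` over `s ∈ K^{d+1}` -/
noncomputable def chainSum {F E : Type} [Field F] [Field E] {d : ℕ} (D : F[X])
    (f : Fin d → F[X]) (χ : Fin (d + 1) → MulChar F E) (K : Type) [Field K] [Algebra F K] : E :=
  ∑ᶠ s : Fin (d + 1) → K, χ 0 (Algebra.norm F (aeval (s 0) D)) *
    ∏ i : Fin d, χ i.succ (Algebra.norm F (s i.castSucc - aeval (s i.succ) (f i)))

/-- `D ∘ f₁ ∘ ⋯ ∘ f_d` -/
noncomputable def iter {F : Type} [Field F] {d : ℕ} (D : F[X]) (f : Fin d → F[X]) : F[X] :=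
  (List.ofFn f).foldl Polynomial.comp D

/-- the product of `T ^ deg g - 1` over the monic irreducible factors `g` of `P` -/
noncomputable def facProd {F : Type} [Field F] (k : Type) [CommRing k] (P : F[X]) : k[X] :=
  ∏ᶠ (g : F[X]) (_ : g.Monic ∧ Irreducible g ∧ g ∣ P), (X ^ g.natDegree - 1)

end DE40
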